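import Mathlib

set_option autoImplicit false

/-!
# Trees with positive edge weights and the four-point condition
-/

namespace Pool.Agent.W983.PCG

open SimpleGraph

/-- A finite tree with positive real edge weights whose leaves (the nodes with at most one
neighbour) are labelled, bijectively, by `V`. -/
structure WTree (V : Type) where
  /-- the nodes -/
  N : Type
  fin : Finite N
  /-- the edges -/
  T : SimpleGraph N
  tree : T.IsTree
  /-- the weights -/
  w : Sym2 N → ℝ
  w_pos : ∀ e ∈ T.edgeSet, 0 < w e
  /-- the leaf with a given label -/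
  leaf : V → N
  leaf_inj : Function.Injective leaf
  leaf_range : ∀ x : N, (∃ v, leaf v = x) ↔ ∀ y z, T.Adj x y → T.Adj x z → y = z

/-- The sum of the weights of the edges of a walk. -/
def wt {N : Type} {T : SimpleGraph N} (w : Sym2 N → ℝ) {x y : N} (p : T.Walk x y) : ℝ :=
  (p.edges.map w).sum

/-- The sum of the weights of the edges on the unique path between two nodes of a tree. -/
noncomputable def pd {N : Type} {T : SimpleGraph N} (hT : T.IsTree) (w : Sym2 N → ℝ)
    (x y : N) : ℝ :=
  wt w (hT.existsUnique_path x y).choose

/-- The distance of two leaves. -/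
noncomputable def WTree.dist {V : Type} (T : WTree V) (u v : V) : ℝ :=
  pd T.tree T.w (T.leaf u) (T.leaf v)

/-- The graph `PCG(T, dmin, dmax)`. -/
def WTree.pcg {V : Type} (T : WTree V) (dmin dmax : ℝ) : SimpleGraph V :=
  SimpleGraph.fromRel (fun u v => dmin ≤ T.dist u v ∧ T.dist u v ≤ dmax)

section

variable {N : Type} {T : SimpleGraph N} (hT : T.IsTree) (w : Sym2 N → ℝ)

include hT in
theorem path_eq {x y : N} {p q : T.Walk x y} (hp : p.IsPath) (hq : q.IsPath) : p = q :=
  (hT.existsUnique_path x y).unique hp hq

theorem pd_eq {x y : N} {p : T.Walk x y} (hp : p.IsPath) : pd hT w x y = wt w p := by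
  unfold pd
  rw [path_eq hT hp (hT.existsUnique_path x y).choose_spec.1]

include hT in
theorem exists_path (x y : N) : ∃ p : T.Walk x y, p.IsPath :=
  (hT.existsUnique_path x y).exists

theorem pd_self (x : N) : pd hT w x x = 0 := by
  rw [pd_eq hT w (p := Walk.nil) (by simp)]
  simp [wt]

theorem pd_comm (x y : N) : pd hT w x y = pd hT w y x := by
  obtain ⟨p, hp⟩ := exists_path hT x y
  rw [pd_eq hT w hp, pd_eq hT w hp.reverse]
  simp [wt, Walk.edges_reverse, List.map_reverse, List.sum_reverse]

/-- `z` lies on the side of `x'` of the edge `x x'`. -/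
def Side (x x' z : N) : Prop := ∃ p : T.Walk x' z, p.IsPath ∧ x ∉ p.support

include hT in
theorem side_or {x x' : N} (h : T.Adj x x') (z : N) :
    Side (T := T) x x' z ∨ Side (T := T) x' x z := by
  classical
  obtain ⟨p, hp⟩ := exists_path hT x' z
  by_cases hx : x ∈ p.support
  · right
    refine ⟨p.dropUntil x hx, hp.dropUntil hx, fun hx' => ?_⟩
    have h1 : (p.takeUntil x hx).append (p.dropUntil x hx) = p := p.take_spec hx
    have h2 : ((p.takeUntil x hx).append (p.dropUntil x hx)).IsPath := by
      rw [h1]
      exact hp
    exact h2.ne_of_mem_support_of_append h.ne' (Walk.start_mem_support _) hx' rfl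
  · exact Or.inl ⟨p, hp, hx⟩

theorem pd_side {x x' z : N} (h : T.Adj x x') (hs : Side (T := T) x x' z) :
    pd hT w x z = w s(x, x') + pd hT w x' z := by
  obtain ⟨p, hp, hx⟩ := hs
  rw [pd_eq hT w hp, pd_eq hT w (hp.cons (h := h) hx)]
  simp [wt]

theorem pd_through {x x' y z : N} (h : T.Adj x x') (hz : Side (T := T) x' x z)
    (hy : Side (T := T) x x' y) :
    pd hT w z y = pd hT w x z + pd hT w x y := by
  classical
  obtain ⟨p, hp, hx⟩ := hz
  obtain ⟨q, hq, hx'⟩ := hy
  have hc : (Walk.cons h q).IsPath := hq.cons hx'
  have hpath : (p.reverse.append (Walk.cons h q)).IsPath := by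
    rw [Walk.isPath_def, Walk.support_append]
    simp only [Walk.support_reverse, Walk.support_cons, List.tail_cons]
    rw [List.nodup_append]
    refine ⟨List.nodup_reverse.2 hp.support_nodup, hq.support_nodup, ?_⟩
    rintro v hv v' hv' rfl
    rw [List.mem_reverse] at hv
    have h1 : (p.takeUntil v hv).IsPath := hp.takeUntil hv
    have h2 : (q.takeUntil v hv').IsPath := hq.takeUntil hv'
    have h3 : x ∉ (q.takeUntil v hv').support :=
      fun hh => hx' (Walk.support_takeUntil_subset_support _ _ hh)
    have h4 := path_eq hT h1 (h2.cons (h := h) h3)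
    apply hx
    apply Walk.support_takeUntil_subset_support _ hv
    rw [h4]
    simp
  rw [pd_eq hT w hpath, pd_eq hT w hp, pd_eq hT w hc]
  simp [wt, Walk.edges_append, Walk.edges_reverse, List.map_reverse, List.sum_reverse]

variable {w} (hw : ∀ e ∈ T.edgeSet, 0 < w e)

include hw in
theorem pd_le_wt {x y : N} (p : T.Walk x y) : pd hT w x y ≤ wt w p := by
  induction p with
  | nil => rw [pd_self]; simp [wt]
  | @cons x x' y h p ih =>
    have hpos : 0 < w s(x, x') := hw _ h
    have he : wt w (Walk.cons h p) = w s(x, x') + wt w p := by simp [wt]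
    rw [he]
    rcases side_or hT h y with hs | hs
    · rw [pd_side hT w h hs]
      linarith
    · have := pd_side hT w h.symm hs
      rw [Sym2.eq_swap] at this
      linarith

include hw in
theorem pd_triangle (x y z : N) : pd hT w y z ≤ pd hT w x y + pd hT w x z := by
  obtain ⟨p, hp⟩ := exists_path hT x y
  obtain ⟨q, hq⟩ := exists_path hT x z
  have h := pd_le_wt hT hw (p.reverse.append q)
  rw [pd_eq hT w hp, pd_eq hT w hq]
  refine h.trans (le_of_eq ?_)
  simp [wt, Walk.edges_append, Walk.edges_reverse, List.map_reverse, List.sum_reverse]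

include hw in
/-- The four-point condition. -/
theorem pd_four_aux {x y : N} (p : T.Walk x y) : p.IsPath → ∀ z u : N,
    pd hT w x y + pd hT w z u ≤
      max (pd hT w x z + pd hT w y u) (pd hT w x u + pd hT w y z) := by
  induction p with
  | @nil x =>
    intro _ z u
    have := pd_triangle hT hw x z u
    rw [pd_self]
    exact le_max_of_le_left (by linarith)
  | @cons x x' y h p ih =>
    intro hp z u
    have hp' : p.IsPath := hp.of_cons
    have hxp : x ∉ p.support := ((Walk.cons_isPath_iff h p).1 hp).2
    have hy : Side (T := T) x x' y := ⟨p, hp', hxp⟩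
    have e := pd_side hT w h hy
    rcases side_or hT h z with hz | hz
    · rcases side_or hT h u with hu | hu
      · have ez := pd_side hT w h hz
        have eu := pd_side hT w h hu
        rcases le_max_iff.1 (ih hp' z u) with h1 | h1
        · exact le_max_of_le_left (by linarith)
        · exact le_max_of_le_right (by linarith)
      · refine le_max_of_le_left ?_
        have h1 := pd_through hT w h hu hy
        rw [pd_comm hT w y u]
        have := pd_triangle hT hw x z u
        linarith
    · refine le_max_of_le_right ?_
      have h1 := pd_through hT w h hz hy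
      rw [pd_comm hT w y z]
      have := pd_triangle hT hw x z u
      linarith

include hw in
theorem pd_four (x y z u : N) : pd hT w x y + pd hT w z u ≤
      max (pd hT w x z + pd hT w y u) (pd hT w x u + pd hT w y z) := by
  obtain ⟨p, hp⟩ := exists_path hT x y
  exact pd_four_aux hT hw p hp z u

end

variable {V : Type} (T : WTree V)

theorem WTree.dist_comm (u v : V) : T.dist u v = T.dist v u := pd_comm _ _ _ _

theorem WTree.four (x y z u : V) : T.dist x y + T.dist z u ≤
    max (T.dist x z + T.dist y u) (T.dist x u + T.dist y z) :=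
  pd_four T.tree T.w_pos _ _ _ _

theorem WTree.pcg_adj (dmin dmax : ℝ) (u v : V) :
    (T.pcg dmin dmax).Adj u v ↔ u ≠ v ∧ dmin ≤ T.dist u v ∧ T.dist u v ≤ dmax := by
  unfold WTree.pcg
  rw [SimpleGraph.fromRel_adj, T.dist_comm v u, or_self]

end Pool.Agent.W983.PCG
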