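import Mathlib
import Pool.Agent.W983.PCG.Tree

set_option autoImplicit false

/-!
# Caterpillar trees
-/

namespace Pool.Agent.W983.PCG

open SimpleGraph

section

variable {V : Type} {K : ℕ}

/-- Neighbours in the caterpillar with the spine `0, …, K` and with a leaf for each `v : V`,
attached to the spine node `s v`. -/
def catRel (s : V → Fin (K + 1)) : Fin (K + 1) ⊕ V → Fin (K + 1) ⊕ V → Prop
  | Sum.inl i, Sum.inl j => i.1 + 1 = j.1
  | Sum.inl i, Sum.inr v => s v = i
  | Sum.inr _, _ => False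

/-- The caterpillar. -/
def cat (s : V → Fin (K + 1)) : SimpleGraph (Fin (K + 1) ⊕ V) :=
  SimpleGraph.fromRel (catRel s)

theorem cat_inl_inl (s : V → Fin (K + 1)) (i j : Fin (K + 1)) :
    (cat s).Adj (Sum.inl i) (Sum.inl j) ↔ i.1 + 1 = j.1 ∨ j.1 + 1 = i.1 := by
  unfold cat
  rw [SimpleGraph.fromRel_adj]
  simp only [catRel, ne_eq, Sum.inl.injEq, and_iff_right_iff_imp]
  rintro h rfl
  omega

theorem cat_inl_inr (s : V → Fin (K + 1)) (i : Fin (K + 1)) (v : V) :
    (cat s).Adj (Sum.inl i) (Sum.inr v) ↔ s v = i := by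
  unfold cat
  rw [SimpleGraph.fromRel_adj]
  simp [catRel]

theorem cat_inr_inl (s : V → Fin (K + 1)) (i : Fin (K + 1)) (v : V) :
    (cat s).Adj (Sum.inr v) (Sum.inl i) ↔ s v = i := by
  rw [SimpleGraph.adj_comm, cat_inl_inr]

theorem cat_inr_inr (s : V → Fin (K + 1)) (u v : V) :
    ¬ (cat s).Adj (Sum.inr u) (Sum.inr v) := by
  unfold cat
  rw [SimpleGraph.fromRel_adj]
  simp [catRel]

/-- A height function on the nodes. -/
def catRank : Fin (K + 1) ⊕ V → ℕ
  | Sum.inl i => i.1
  | Sum.inr _ => K + 1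

/-- Each node has at most one neighbour which is not higher. -/
theorem cat_lower (s : V → Fin (K + 1)) {x y z : Fin (K + 1) ⊕ V} (h1 : (cat s).Adj x y)
    (h2 : (cat s).Adj x z) (hy : catRank y ≤ catRank x) (hz : catRank z ≤ catRank x) :
    y = z := by
  cases x with
  | inl i =>
    cases y with
    | inl j =>
      cases z with
      | inl k =>
        rw [cat_inl_inl] at h1 h2
        simp only [catRank] at hy hz
        congr 1
        apply Fin.ext
        omega
      | inr v =>
        simp only [catRank] at hz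
        omega
    | inr u =>
      simp only [catRank] at hy
      omega
  | inr v =>
    cases y with
    | inl j =>
      cases z with
      | inl k =>
        rw [cat_inr_inl] at h1 h2
        rw [← h1, ← h2]
      | inr u => exact absurd h2 (cat_inr_inr s _ _)
    | inr u => exact absurd h1 (cat_inr_inr s _ _)

/-- If each node has at most one neighbour which is not higher then there is no cycle. -/
theorem acyclic_of_rank {N : Type} (G : SimpleGraph N) (r : N → ℕ)
    (h : ∀ x y z, G.Adj x y → G.Adj x z → r y ≤ r x → r z ≤ r x → y = z) : G.IsAcyclic := by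
  classical
  intro v c hc
  obtain ⟨m, hm, hmax⟩ := c.support.toFinset.exists_max_image r
    ⟨v, by simp⟩
  rw [List.mem_toFinset] at hm
  have hc' := hc.rotate hm
  have hle : ∀ y ∈ (c.rotate m hm).support, r y ≤ r m := by
    intro y hy
    apply hmax
    rw [List.mem_toFinset]
    exact (c.mem_support_rotate_iff m hm).1 hy
  refine hc'.snd_ne_penultimate (h m _ _ (Walk.adj_snd hc'.not_nil)
    (Walk.adj_penultimate hc'.not_nil).symm (hle _ ?_) (hle _ ?_))
  · exact Walk.getVert_mem_support _ _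
  · exact Walk.getVert_mem_support _ _

/-- The weights: `1` on the spine, `h v` at the leaf `v`. -/
noncomputable def catW (h : V → ℝ) : Sym2 (Fin (K + 1) ⊕ V) → ℝ :=
  Sym2.lift ⟨fun x y => match x, y with
    | Sum.inl _, Sum.inl _ => 1
    | Sum.inl _, Sum.inr v => h v
    | Sum.inr v, Sum.inl _ => h v
    | Sum.inr _, Sum.inr _ => 1, by
      rintro (x | x) (y | y) <;> rfl⟩

theorem spine_path (s : V → Fin (K + 1)) (h : V → ℝ) : ∀ (n : ℕ) (i j : Fin (K + 1)),
    j.1 = i.1 + n → ∃ p : (cat s).Walk (Sum.inl i) (Sum.inl j), p.IsPath ∧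
      wt (catW h) p = n ∧ ∀ x ∈ p.support, ∃ k : Fin (K + 1), x = Sum.inl k ∧ i.1 ≤ k.1 := by
  intro n
  induction n with
  | zero =>
    intro i j hij
    have : i = j := Fin.ext (by omega)
    subst this
    exact ⟨Walk.nil, by simp, by simp [wt], by simp⟩
  | succ n ih =>
    intro i j hij
    have hlt : i.1 + 1 < K + 1 := by have := j.2; omega
    obtain ⟨p, hp, hw, hs⟩ := ih ⟨i.1 + 1, hlt⟩ j (by simp only; omega)
    have hadj : (cat s).Adj (Sum.inl i) (Sum.inl ⟨i.1 + 1, hlt⟩) := by
      rw [cat_inl_inl]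
      exact Or.inl rfl
    refine ⟨Walk.cons hadj p, hp.cons ?_, ?_, ?_⟩
    · intro hmem
      obtain ⟨k, hk, hle⟩ := hs _ hmem
      have : i = k := Sum.inl.inj hk
      subst this
      simp only at hle
      omega
    · have : wt (catW h) (Walk.cons hadj p) = 1 + wt (catW h) p := by
        simp [wt, catW]
      rw [this, hw]
      push_cast
      ring
    · intro x hx
      rw [Walk.support_cons, List.mem_cons] at hx
      rcases hx with rfl | hx
      · exact ⟨i, rfl, le_rfl⟩
      · obtain ⟨k, hk, hle⟩ := hs _ hx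
        exact ⟨k, hk, by simp only at hle; omega⟩

theorem spine_path' (s : V → Fin (K + 1)) (h : V → ℝ) (i j : Fin (K + 1)) :
    ∃ p : (cat s).Walk (Sum.inl i) (Sum.inl j), p.IsPath ∧
      wt (catW h) p = |(i.1 : ℝ) - j.1| ∧ ∀ x ∈ p.support, ∃ k : Fin (K + 1), x = Sum.inl k := by
  rcases le_total i.1 j.1 with hij | hij
  · obtain ⟨p, hp, hw, hs⟩ := spine_path s h (j.1 - i.1) i j (by omega)
    refine ⟨p, hp, ?_, fun x hx => ?_⟩
    · rw [hw, abs_sub_comm, abs_of_nonneg]
      · push_cast [hij]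
        ring
      · have : (i.1 : ℝ) ≤ j.1 := by exact_mod_cast hij
        linarith
    · obtain ⟨k, hk, -⟩ := hs x hx
      exact ⟨k, hk⟩
  · obtain ⟨p, hp, hw, hs⟩ := spine_path s h (i.1 - j.1) j i (by omega)
    refine ⟨p.reverse, hp.reverse, ?_, fun x hx => ?_⟩
    · have : wt (catW h) p.reverse = wt (catW h) p := by
        simp [wt, Walk.edges_reverse, List.map_reverse, List.sum_reverse]
      rw [this, hw, abs_of_nonneg]
      · push_cast [hij]
        ring
      · have : (j.1 : ℝ) ≤ i.1 := by exact_mod_cast hij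
        linarith
    · obtain ⟨k, hk, -⟩ := hs x (by simpa using hx)
      exact ⟨k, hk⟩

theorem leaf_path (s : V → Fin (K + 1)) (h : V → ℝ) (u v : V) (huv : u ≠ v) :
    ∃ p : (cat s).Walk (Sum.inr u) (Sum.inr v), p.IsPath ∧
      wt (catW h) p = h u + h v + |((s u).1 : ℝ) - (s v).1| := by
  obtain ⟨p, hp, hw, hs⟩ := spine_path' s h (s u) (s v)
  have a1 : (cat s).Adj (Sum.inr u) (Sum.inl (s u)) := (cat_inr_inl s _ _).2 rfl
  have a2 : (cat s).Adj (Sum.inl (s v)) (Sum.inr v) := (cat_inl_inr s _ _).2 rfl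
  have n1 : Sum.inr v ∉ p.support := fun hh => by
    obtain ⟨k, hk⟩ := hs _ hh
    cases hk
  have hp2 : (p.concat a2).IsPath := hp.concat n1 a2
  have n2 : Sum.inr u ∉ (p.concat a2).support := fun hh => by
    rw [Walk.support_concat, List.mem_append] at hh
    rcases hh with hh | hh
    · obtain ⟨k, hk⟩ := hs _ hh
      cases hk
    · rw [List.mem_singleton] at hh
      exact huv (Sum.inr.inj hh)
  refine ⟨Walk.cons a1 (p.concat a2), hp2.cons n2, ?_⟩
  have : wt (catW h) (Walk.cons a1 (p.concat a2)) = h u + (wt (catW h) p + h v) := by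
    simp [wt, catW, Walk.edges_concat]
  rw [this, hw]
  ring

theorem cat_connected (s : V → Fin (K + 1)) : (cat s).Connected := by
  have hsp : ∀ x : Fin (K + 1) ⊕ V, ∃ i : Fin (K + 1), (cat s).Reachable x (Sum.inl i) := by
    rintro (i | v)
    · exact ⟨i, Reachable.refl _⟩
    · exact ⟨s v, ((cat_inr_inl s _ _).2 rfl : (cat s).Adj (Sum.inr v) (Sum.inl (s v))).reachable⟩
  have : Nonempty (Fin (K + 1) ⊕ V) := ⟨Sum.inl 0⟩
  refine Connected.mk (fun x y => ?_)
  obtain ⟨i, hi⟩ := hsp x
  obtain ⟨j, hj⟩ := hsp y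
  obtain ⟨p, -⟩ := spine_path' s (fun _ => 1) i j
  exact hi.trans (p.reachable.trans hj.symm)

theorem cat_tree (s : V → Fin (K + 1)) : (cat s).IsTree :=
  ⟨cat_connected s, acyclic_of_rank _ catRank (fun _ _ _ => cat_lower s)⟩

theorem catW_pos (s : V → Fin (K + 1)) (h : V → ℝ) (hh : ∀ v, 0 < h v) :
    ∀ e ∈ (cat s).edgeSet, 0 < catW h e := by
  intro e
  induction e using Sym2.inductionOn with
  | hf x y =>
    intro he
    cases x <;> cases y <;> simp [catW, hh]

/-- The leaves of the caterpillar are the labelled ones. -/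
theorem cat_leaf (hK : 0 < K) (s : V → Fin (K + 1)) {u0 u1 : V} (h0 : s u0 = 0)
    (h1 : s u1 = Fin.last K) (x : Fin (K + 1) ⊕ V) : (∃ v, Sum.inr v = x) ↔
      ∀ y z, (cat s).Adj x y → (cat s).Adj x z → y = z := by
  constructor
  · rintro ⟨v, rfl⟩ y z hy hz
    refine cat_lower s hy hz ?_ ?_
    · cases y with
      | inl j => simp only [catRank]; omega
      | inr u => simp only [catRank]; omega
    · cases z with
      | inl j => simp only [catRank]; omega
      | inr u => simp only [catRank]; omega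
  · intro h
    cases x with
    | inr v => exact ⟨v, rfl⟩
    | inl i =>
      exfalso
      rcases Nat.eq_zero_or_pos i.1 with hi | hi
      · have e : (cat s).Adj (Sum.inl i) (Sum.inr u0) :=
          (cat_inl_inr s _ _).2 (h0.trans (Fin.ext (by simp [hi])))
        have e' : (cat s).Adj (Sum.inl i) (Sum.inl ⟨1, by omega⟩) :=
          (cat_inl_inl s _ _).2 (Or.inl (by simp [hi]))
        exact absurd (h _ _ e e') (by simp)
      · rcases Nat.lt_or_ge i.1 K with hi' | hi'
        · have e : (cat s).Adj (Sum.inl i) (Sum.inl ⟨i.1 - 1, by omega⟩) :=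
            (cat_inl_inl s _ _).2 (Or.inr (by simp only; omega))
          have e' : (cat s).Adj (Sum.inl i) (Sum.inl ⟨i.1 + 1, by omega⟩) :=
            (cat_inl_inl s _ _).2 (Or.inl rfl)
          have := h _ _ e e'
          rw [Sum.inl.injEq, Fin.mk.injEq] at this
          omega
        · have e : (cat s).Adj (Sum.inl i) (Sum.inr u1) :=
            (cat_inl_inr s _ _).2 (h1.trans (Fin.ext (by simp only [Fin.val_last]; omega)))
          have e' : (cat s).Adj (Sum.inl i) (Sum.inl ⟨i.1 - 1, by omega⟩) :=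
            (cat_inl_inl s _ _).2 (Or.inr (by simp only; omega))
          exact absurd (h _ _ e e') (by simp)

/-- The caterpillar as a weighted tree with labelled leaves. -/
noncomputable def catTree [Finite V] (hK : 0 < K) (s : V → Fin (K + 1)) (h : V → ℝ)
    (hh : ∀ v, 0 < h v) {u0 u1 : V} (h0 : s u0 = 0) (h1 : s u1 = Fin.last K) : WTree V where
  N := Fin (K + 1) ⊕ V
  fin := inferInstance
  T := cat s
  tree := cat_tree s
  w := catW h
  w_pos := catW_pos s h hh
  leaf := Sum.inr
  leaf_inj := Sum.inr_injective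
  leaf_range := cat_leaf hK s h0 h1

theorem catTree_dist [Finite V] (hK : 0 < K) (s : V → Fin (K + 1)) (h : V → ℝ)
    (hh : ∀ v, 0 < h v) {u0 u1 : V} (h0 : s u0 = 0) (h1 : s u1 = Fin.last K) (u v : V)
    (huv : u ≠ v) : (catTree hK s h hh h0 h1).dist u v =
      h u + h v + |((s u).1 : ℝ) - (s v).1| := by
  obtain ⟨p, hp, hw⟩ := leaf_path s h u v huv
  rw [← hw]
  exact pd_eq (cat_tree s) (catW h) hp

end

end Pool.Agent.W983.PCG
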