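import Mathlib
import Pool.Agent.W983.PCG.Tree

set_option autoImplicit false

/-!
# Generalized PCG recognition
-/

namespace Pool.Agent.W983.PCG

/-- There are a tree `T`, whose leaves are identified with `V`, and `0 ≤ dmin ≤ dmax` such that
`PCG(T, dmin, dmax)` contains every edge of `G` and no pair of `S`. -/
def Compat {V : Type} (G S : SimpleGraph V) : Prop :=
  ∃ (T : WTree V) (dmin dmax : ℝ), 0 ≤ dmin ∧ dmin ≤ dmax ∧
    G ≤ T.pcg dmin dmax ∧ Disjoint S (T.pcg dmin dmax)

/-- `A` is the adjacency matrix of the graph `G` with the vertices `0, …, n - 1`. -/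
def IsAdj {n : ℕ} (A : List (List Bool)) (G : SimpleGraph (Fin n)) : Prop :=
  A.length = n ∧ (∀ row ∈ A, row.length = n) ∧
    ∀ i j : Fin n, (A.getD i []).getD j false = true ↔ G.Adj i j

/-- Generalized PCG recognition: the input consists of the adjacency matrices of a graph `G` and
of a set `S` of non-edges of `G`. -/
def GenPCG (I : List (List Bool) × List (List Bool)) : Prop :=
  ∃ (n : ℕ) (G S : SimpleGraph (Fin n)), IsAdj I.1 G ∧ IsAdj I.2 S ∧ Disjoint G S ∧ Compat G S

/-- PCG recognition. -/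
def IsPCG {V : Type} (G : SimpleGraph V) : Prop :=
  ∃ (T : WTree V) (dmin dmax : ℝ), 0 ≤ dmin ∧ dmin ≤ dmax ∧ G = T.pcg dmin dmax

/-- With `S` the complement of `G` one gets the pairwise compatibility graphs. -/
theorem compat_compl {V : Type} (G : SimpleGraph V) : Compat G Gᶜ ↔ IsPCG G := by
  constructor
  · rintro ⟨T, a, b, h0, h1, h2, h3⟩
    refine ⟨T, a, b, h0, h1, le_antisymm h2 ?_⟩
    exact (disjoint_compl_left_iff.1 h3)
  · rintro ⟨T, a, b, h0, h1, rfl⟩
    exact ⟨T, a, b, h0, h1, le_rfl, disjoint_compl_left⟩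

end Pool.Agent.W983.PCG
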