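import Mathlib

set_option autoImplicit false

/-!
# The gadgets: tables of the required pairs, soundness from the four-point condition
-/

namespace Pool.Agent.W983.PCG

/-- The edges of the gadget which forces `x y` to be a short pair. -/
def fsE (x y k : ℕ) : List (ℕ × ℕ) :=
  [(k, k + 1), (k + 2, k + 3), (x, k), (x, k + 1), (x, k + 2), (x, k + 3),
    (y, k), (y, k + 1), (y, k + 2), (y, k + 3)]

/-- The forbidden pairs of the gadget which forces `x y` to be a short pair. -/
def fsS (x y k : ℕ) : List (ℕ × ℕ) :=
  [(x, y), (k, k + 2), (k, k + 3), (k + 1, k + 2), (k + 1, k + 3)]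

/-- The edges of the disjunction gadget; the terminals are `0`, `1`, `2`. -/
def orE : List (ℕ × ℕ) :=
  [(6, 1), (6, 3), (1, 3), (7, 0), (7, 4), (0, 4), (8, 2), (8, 5), (2, 5), (0, 5), (3, 4), (3, 5)] ++
    fsE 0 6 9 ++ fsE 2 7 13 ++ fsE 4 8 17

/-- The forbidden pairs of the disjunction gadget. -/
def orS : List (ℕ × ℕ) :=
  [(0, 1), (0, 3), (2, 0), (2, 4), (4, 5)] ++ fsS 0 6 9 ++ fsS 2 7 13 ++ fsS 4 8 17

/-- The edges of the gadget which forces `0 1` to be a long pair. -/
def flE : List (ℕ × ℕ) :=
  [(2, 0), (1, 3)] ++ fsE 2 1 4 ++ fsE 0 3 8 ++ fsE 2 3 12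

/-- The forbidden pairs of the gadget which forces `0 1` to be a long pair. -/
def flS : List (ℕ × ℕ) :=
  [(0, 1)] ++ fsS 2 1 4 ++ fsS 0 3 8 ++ fsS 2 3 12

/-- A symmetric function with the four-point condition. -/
structure Four {α : Type} (d : α → α → ℝ) : Prop where
  comm : ∀ x y, d x y = d y x
  four : ∀ x y z u, d x y + d z u ≤ max (d x z + d y u) (d x u + d y z)

/-- The pair is at a distance in the interval `[m, M]`. -/
def InE {α : Type} (d : α → α → ℝ) (m M : ℝ) (x y : α) : Prop := m ≤ d x y ∧ d x y ≤ M

section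

variable {α : Type} {d : α → α → ℝ} (h : Four d) {m M : ℝ}

include h in
theorem InE.symm {x y : α} (hxy : InE d m M x y) : InE d m M y x := by
  unfold InE
  rw [h.comm y x]
  exact hxy

include h in
/-- Two long pairs are not joined by a four-cycle. -/
theorem not_long_long {x y x' y' : α} (h1 : InE d m M x x') (h2 : InE d m M x y')
    (h3 : InE d m M y x') (h4 : InE d m M y y') (h5 : M < d x y) (h6 : M < d x' y') : False := by
  have := h.four x y x' y'
  rcases le_max_iff.1 this with h7 | h7
  · linarith [h1.2, h4.2]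
  · linarith [h2.2, h3.2]

include h in
/-- Short pairs at the end of three edges from one point. -/
theorem claw {x y u z : α} (h1 : InE d m M z x) (h2 : InE d m M z y) (h3 : InE d m M z u)
    (h4 : d x y < m) (h5 : d y u < m) : ¬ M < d x u := by
  intro h6
  have := h.four x u y z
  rw [h.comm x z, h.comm u y, h.comm u z, h.comm y z] at this
  rcases le_max_iff.1 this with h7 | h7
  · linarith [h1.2, h2.1, h3.2]
  · linarith [h1.2, h2.1, h3.2]

include h in
/-- Not all pairs between two edges are short. -/
theorem not_all_short {a b c e : α} (h1 : InE d m M a b) (h2 : InE d m M c e)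
    (h3 : d a c < m) (h4 : d b e < m) (h5 : d a e < m) (h6 : d b c < m) : False := by
  have := h.four a b c e
  rcases le_max_iff.1 this with h7 | h7
  · linarith [h1.1, h2.1]
  · linarith [h1.1, h2.1]

include h in
/-- The transfer of shortness. -/
theorem transfer {a b c e : α} (h1 : InE d m M a b) (h2 : InE d m M a e) (h3 : InE d m M b e)
    (h4 : d c a < m) (h5 : d c b < m) : ¬ M < d c e := by
  intro h6
  have := h.four c e a b
  rw [h.comm e b, h.comm e a] at this
  rcases le_max_iff.1 this with h7 | h7
  · linarith [h1.1, h3.2]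
  · linarith [h1.1, h2.2]

theorem short_or_long {x y : α} (hs : ¬ InE d m M x y) : d x y < m ∨ M < d x y := by
  unfold InE at hs
  by_contra hc
  rw [not_or, not_lt, not_lt] at hc
  exact hs hc

theorem short_of {x y : α} (hs : ¬ InE d m M x y) (hl : ¬ M < d x y) : d x y < m :=
  (short_or_long hs).resolve_right hl

include h in
theorem fs_sound {e : ℕ → α} {x y k : ℕ} (hE : ∀ p ∈ fsE x y k, InE d m M (e p.1) (e p.2))
    (hS : ∀ p ∈ fsS x y k, ¬ InE d m M (e p.1) (e p.2)) : d (e x) (e y) < m := by
  simp only [fsE, fsS, List.forall_mem_cons, List.not_mem_nil, false_imp_iff, implies_true,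
    and_true] at hE hS
  obtain ⟨a1, a2, x0, x1, x2, x3, y0, y1, y2, y3⟩ := hE
  obtain ⟨s, s1, s2, s3, s4⟩ := hS
  refine short_of s (fun hl => ?_)
  rcases short_or_long s1 with t1 | t1
  · rcases short_or_long s2 with t2 | t2
    · rcases short_or_long s3 with t3 | t3
      · rcases short_or_long s4 with t4 | t4
        · exact not_all_short h a1 a2 t1 t4 t2 t3
        · exact not_long_long h x1 x3 y1 y3 hl t4
      · exact not_long_long h x1 x2 y1 y2 hl t3
    · exact not_long_long h x0 x3 y0 y3 hl t2
  · exact not_long_long h x0 x2 y0 y2 hl t1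

include h in
/-- Shortness goes over in the equality gadget. -/
theorem eq_sound {a b c e : α} (h1 : InE d m M a b) (h2 : InE d m M a e) (h3 : InE d m M b e)
    (h4 : d c a < m) (hs : ¬ InE d m M c e) (h5 : d c b < m) : d c e < m :=
  short_of hs (transfer h h1 h2 h3 h4 h5)

include h in
theorem or_sound {e : ℕ → α} (hE : ∀ p ∈ orE, InE d m M (e p.1) (e p.2))
    (hS : ∀ p ∈ orS, ¬ InE d m M (e p.1) (e p.2)) :
    d (e 0) (e 1) < m ∨ d (e 0) (e 2) < m := by
  have f1 : d (e 0) (e 6) < m := fs_sound h (x := 0) (y := 6) (k := 9)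
    (fun p hp => hE p (by simp only [orE, List.mem_append]; tauto))
    (fun p hp => hS p (by simp only [orS, List.mem_append]; tauto))
  have f2 : d (e 2) (e 7) < m := fs_sound h (x := 2) (y := 7) (k := 13)
    (fun p hp => hE p (by simp only [orE, List.mem_append]; tauto))
    (fun p hp => hS p (by simp only [orS, List.mem_append]; tauto))
  have f3 : d (e 4) (e 8) < m := fs_sound h (x := 4) (y := 8) (k := 17)
    (fun p hp => hE p (by simp only [orE, List.mem_append]; tauto))
    (fun p hp => hS p (by simp only [orS, List.mem_append]; tauto))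
  have g : ∀ i j, (i, j) ∈ orE → InE d m M (e i) (e j) := fun i j hij => hE _ hij
  have g' : ∀ i j, (i, j) ∈ orS → ¬ InE d m M (e i) (e j) := fun i j hij => hS _ hij
  have s01 := g' 0 1 (by decide)
  have s03 := g' 0 3 (by decide)
  have s20 := g' 2 0 (by decide)
  have s24 := g' 2 4 (by decide)
  have s45 := g' 4 5 (by decide)
  have s42 : ¬ InE d m M (e 4) (e 2) := fun hh => s24 (hh.symm h)
  -- either `0 3` is short or `4 5` is short
  rcases short_or_long s03 with t | t
  · left
    exact eq_sound h (a := e 6) (b := e 3) (c := e 0) (e := e 1) (g 6 3 (by decide))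
      (g 6 1 (by decide)) ((g 1 3 (by decide)).symm h) f1 s01 t
  · right
    have t45 : d (e 4) (e 5) < m := by
      refine short_of s45 (fun hl => ?_)
      exact not_long_long h (g 0 4 (by decide)) (g 0 5 (by decide)) (g 3 4 (by decide))
        (g 3 5 (by decide)) t hl
    have t42 : d (e 4) (e 2) < m :=
      eq_sound h (a := e 8) (b := e 5) (c := e 4) (e := e 2) (g 8 5 (by decide))
        (g 8 2 (by decide)) ((g 2 5 (by decide)).symm h) f3 s42 t45
    have t24 : d (e 2) (e 4) < m := by rw [h.comm]; exact t42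
    have t20 : d (e 2) (e 0) < m :=
      eq_sound h (a := e 7) (b := e 4) (c := e 2) (e := e 0) (g 7 4 (by decide))
        (g 7 0 (by decide)) ((g 0 4 (by decide)).symm h) f2 s20 t24
    rw [h.comm]
    exact t20

include h in
theorem fl_sound {e : ℕ → α} (hE : ∀ p ∈ flE, InE d m M (e p.1) (e p.2))
    (hS : ∀ p ∈ flS, ¬ InE d m M (e p.1) (e p.2)) : ¬ d (e 0) (e 1) < m := by
  have f1 : d (e 2) (e 1) < m := fs_sound h (x := 2) (y := 1) (k := 4)
    (fun p hp => hE p (by simp only [flE, List.mem_append]; tauto))
    (fun p hp => hS p (by simp only [flS, List.mem_append]; tauto))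
  have f2 : d (e 0) (e 3) < m := fs_sound h (x := 0) (y := 3) (k := 8)
    (fun p hp => hE p (by simp only [flE, List.mem_append]; tauto))
    (fun p hp => hS p (by simp only [flS, List.mem_append]; tauto))
  have f3 : d (e 2) (e 3) < m := fs_sound h (x := 2) (y := 3) (k := 12)
    (fun p hp => hE p (by simp only [flE, List.mem_append]; tauto))
    (fun p hp => hS p (by simp only [flS, List.mem_append]; tauto))
  intro hh
  exact not_all_short h (hE (2, 0) (by decide)) (hE (1, 3) (by decide)) f1 f2 f3 hh

end

end Pool.Agent.W983.PCG
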