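import Mathlib
import Pool.Agent.W983.PCG.Defs
import Pool.Agent.W983.PCG.Cat
import Pool.Agent.W983.PCG.Gad

set_option autoImplicit false

/-!
# Instances from lists of pairs of names
-/

namespace Pool.Agent.W983.PCG

variable {X : Type} [DecidableEq X]

/-- The names which occur in a list of pairs. -/
def ends (E : List (X × X)) : List X := E.flatMap (fun e => [e.1, e.2])

/-- The pairs are required in one of the two orders. -/
def rel (E : List (X × X)) (u v : X) : Bool := decide (u ≠ v ∧ ((u, v) ∈ E ∨ (v, u) ∈ E))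

/-- The adjacency matrix. -/
def mat (l : List X) (A : X → X → Bool) : List (List Bool) :=
  l.map (fun u => l.map (fun v => A u v))

/-- The instance with the vertices `l`, the edges `E` and the forbidden pairs `S`. -/
def inst (l : List X) (E S : List (X × X)) : List (List Bool) × List (List Bool) :=
  (mat l (rel E), mat l (rel S))

omit [DecidableEq X] in
theorem mat_length (l : List X) (A : X → X → Bool) : (mat l A).length = l.length := by
  simp [mat]

omit [DecidableEq X] in
theorem mat_entry (l : List X) (A : X → X → Bool) {i j : ℕ} (hi : i < l.length)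
    (hj : j < l.length) : ((mat l A).getD i []).getD j false = A l[i] l[j] := by
  simp [mat, List.getD_eq_getElem?_getD, hi, hj]

theorem rel_iff (E : List (X × X)) (u v : X) :
    rel E u v = true ↔ u ≠ v ∧ ((u, v) ∈ E ∨ (v, u) ∈ E) := by
  simp [rel]

/-- The graph of the names. -/
def listGraph (l : List X) (E : List (X × X)) : SimpleGraph (Fin l.length) where
  Adj i j := rel E l[i] l[j] = true
  symm := ⟨fun i j h => by
    rw [rel_iff] at h ⊢
    exact ⟨h.1.symm, h.2.symm⟩⟩
  loopless := ⟨fun i h => by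
    rw [rel_iff] at h
    exact h.1 rfl⟩

theorem isAdj_listGraph (l : List X) (E : List (X × X)) :
    IsAdj (mat l (rel E)) (listGraph l E) := by
  refine ⟨mat_length _ _, ?_, fun i j => ?_⟩
  · intro row hrow
    obtain ⟨u, hu, rfl⟩ := List.mem_map.1 hrow
    simp
  · rw [mat_entry l (rel E) i.2 j.2]
    exact Iff.rfl

theorem mem_ends {E : List (X × X)} {u v : X} (h : (u, v) ∈ E) : u ∈ ends E ∧ v ∈ ends E := by
  unfold ends
  constructor
  · exact List.mem_flatMap.2 ⟨_, h, by simp⟩
  · exact List.mem_flatMap.2 ⟨_, h, by simp⟩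

/-- Soundness: the distances of the names. -/
theorem of_inst {l : List X} {E S : List (X × X)} (hne : l ≠ [])
    (hE : ∀ u v, (u, v) ∈ E → u ∈ l ∧ v ∈ l) (hS : ∀ u v, (u, v) ∈ S → u ∈ l ∧ v ∈ l)
    (h : GenPCG (inst l E S)) :
    ∃ (d : X → X → ℝ) (m M : ℝ), Four d ∧ (∀ u v, (u, v) ∈ E → u ≠ v → InE d m M u v) ∧
      ∀ u v, (u, v) ∈ S → u ≠ v → ¬ InE d m M u v := by
  obtain ⟨n, G, T, hG, hT, -, C, m, M, -, -, h1, h2⟩ := h
  have hn : l.length = n := by
    rw [← hG.1]
    exact (mat_length _ _).symm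
  subst hn
  have hpos : 0 < l.length := List.length_pos_iff.2 hne
  -- the index of a name
  let f : X → Fin l.length := fun x =>
    if hx : x ∈ l then ⟨l.idxOf x, List.idxOf_lt_length_of_mem hx⟩ else ⟨0, hpos⟩
  have hf : ∀ x (hx : x ∈ l), l[(f x).1]'(f x).2 = x := by
    intro x hx
    have : f x = ⟨l.idxOf x, List.idxOf_lt_length_of_mem hx⟩ := by
      simp only [f]
      rw [dif_pos hx]
    simp only [this]
    exact List.getElem_idxOf _
  have hfne : ∀ x y, x ∈ l → y ∈ l → x ≠ y → f x ≠ f y := by
    intro x y hx hy hxy he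
    apply hxy
    rw [← hf x hx, ← hf y hy]
    simp only [he]
  refine ⟨fun x y => C.dist (f x) (f y), m, M, ⟨fun x y => C.dist_comm _ _,
    fun x y z u => C.four _ _ _ _⟩, ?_, ?_⟩
  · intro u v huv hne
    obtain ⟨hu, hv⟩ := hE u v huv
    have ha : G.Adj (f u) (f v) := by
      rw [← hG.2.2]
      change ((mat l (rel E)).getD (f u).1 []).getD (f v).1 false = true
      rw [mat_entry l (rel E) (f u).2 (f v).2, hf u hu, hf v hv, rel_iff]
      exact ⟨hne, Or.inl huv⟩
    exact ((C.pcg_adj _ _ _ _).1 (h1 ha)).2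
  · intro u v huv hne hin
    obtain ⟨hu, hv⟩ := hS u v huv
    have ha : T.Adj (f u) (f v) := by
      rw [← hT.2.2]
      change ((mat l (rel S)).getD (f u).1 []).getD (f v).1 false = true
      rw [mat_entry l (rel S) (f u).2 (f v).2, hf u hu, hf v hv, rel_iff]
      exact ⟨hne, Or.inl huv⟩
    have hb : (C.pcg m M).Adj (f u) (f v) :=
      (C.pcg_adj _ _ _ _).2 ⟨hfne u v hu hv hne, hin⟩
    have hc := SimpleGraph.disjoint_left.1 h2
    exact hc _ _ ha hb

/-- The distance of two leaves of the caterpillar. -/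
def dd (a b : ℤ × ℤ) : ℤ := a.2 + b.2 + |a.1 - b.1|

/-- The distance is in the interval `[100, 250]`. -/
def good (a b : ℤ × ℤ) : Bool := decide (100 ≤ dd a b) && decide (dd a b ≤ 250)

/-- Completeness: positions of the names. -/
theorem to_inst {l : List X} {E S : List (X × X)} (P : X → ℤ × ℤ)
    (hP : ∀ x, -170 ≤ (P x).1 ∧ (P x).1 ≤ 170 ∧ 0 < (P x).2)
    (hE : ∀ u v, (u, v) ∈ E → good (P u) (P v) = true)
    (hS : ∀ u v, (u, v) ∈ S → good (P u) (P v) = false)
    {x0 x1 : X} (h0 : x0 ∈ l) (h1 : x1 ∈ l) (e0 : (P x0).1 = -170) (e1 : (P x1).1 = 170) :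
    GenPCG (inst l E S) := by
  let s : Fin l.length → Fin (340 + 1) := fun i =>
    ⟨((P l[i]).1 + 170).toNat, by have := hP l[i]; omega⟩
  let g : Fin l.length → ℝ := fun i => ((P l[i]).2 : ℝ)
  have hg : ∀ i, 0 < g i := fun i => by
    have := (hP l[i]).2.2
    simp only [g]
    exact_mod_cast this
  have hs0 : s ⟨l.idxOf x0, List.idxOf_lt_length_of_mem h0⟩ = 0 := by
    apply Fin.ext
    simp only [s]
    have : l[(⟨l.idxOf x0, List.idxOf_lt_length_of_mem h0⟩ : Fin l.length)] = x0 :=
      List.getElem_idxOf _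
    rw [this, e0]
    simp
  have hs1 : s ⟨l.idxOf x1, List.idxOf_lt_length_of_mem h1⟩ = Fin.last 340 := by
    apply Fin.ext
    simp only [s]
    have : l[(⟨l.idxOf x1, List.idxOf_lt_length_of_mem h1⟩ : Fin l.length)] = x1 :=
      List.getElem_idxOf _
    rw [this, e1]
    simp
  let C := catTree (by norm_num : 0 < 340) s g hg hs0 hs1
  have hd : ∀ i j : Fin l.length, i ≠ j → C.dist i j = (dd (P l[i]) (P l[j]) : ℤ) := by
    intro i j hij
    have := catTree_dist (by norm_num : 0 < 340) s g hg hs0 hs1 i j hij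
    rw [show C.dist i j = _ from this]
    have ai : (((s i).1 : ℕ) : ℝ) = ((P l[i]).1 : ℝ) + 170 := by
      have h2 : (((s i).1 : ℕ) : ℤ) = (P l[i]).1 + 170 := by
        simp only [s]
        have := (hP l[i]).1
        omega
      exact_mod_cast h2
    have aj : (((s j).1 : ℕ) : ℝ) = ((P l[j]).1 : ℝ) + 170 := by
      have h2 : (((s j).1 : ℕ) : ℤ) = (P l[j]).1 + 170 := by
        simp only [s]
        have := (hP l[j]).1
        omega
      exact_mod_cast h2
    rw [ai, aj]
    unfold dd
    push_cast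
    simp only [g]
    congr 2
    ring
  have hgood : ∀ i j : Fin l.length, i ≠ j →
      ((C.pcg 100 250).Adj i j ↔ good (P l[i]) (P l[j]) = true) := by
    intro i j hij
    rw [C.pcg_adj, hd i j hij]
    unfold good
    rw [Bool.and_eq_true, decide_eq_true_iff, decide_eq_true_iff]
    constructor
    · rintro ⟨-, h2, h3⟩
      exact ⟨by exact_mod_cast h2, by exact_mod_cast h3⟩
    · rintro ⟨h2, h3⟩
      exact ⟨hij, by exact_mod_cast h2, by exact_mod_cast h3⟩
  have k1 : listGraph l E ≤ C.pcg 100 250 := by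
    intro i j hij
    have hne : i ≠ j := hij.ne
    rw [hgood i j hne]
    have hij' : rel E l[i] l[j] = true := hij
    rw [rel_iff] at hij'
    rcases hij'.2 with h2 | h2
    · exact hE _ _ h2
    · have := hE _ _ h2
      unfold good dd at this ⊢
      rw [abs_sub_comm, add_comm (P l[i]).2]
      exact this
  have k2 : Disjoint (listGraph l S) (C.pcg 100 250) := by
    rw [SimpleGraph.disjoint_left]
    intro i j hij hadj
    have hne : i ≠ j := hij.ne
    rw [hgood i j hne] at hadj
    have hij' : rel S l[i] l[j] = true := hij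
    rw [rel_iff] at hij'
    rcases hij'.2 with h2 | h2
    · rw [hS _ _ h2] at hadj
      exact absurd hadj (by decide)
    · have := hS _ _ h2
      unfold good dd at this hadj
      rw [abs_sub_comm, add_comm (P l[i]).2, this] at hadj
      exact absurd hadj (by decide)
  exact ⟨l.length, listGraph l E, listGraph l S, isAdj_listGraph _ _, isAdj_listGraph _ _,
    k2.symm.mono_left k1, C, 100, 250, by norm_num, by norm_num, k1, k2⟩

end Pool.Agent.W983.PCG
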