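import Mathlib
import Pool.Agent.W983.PCG.Inst
import Pool.Agent.NPC.Sat

set_option autoImplicit false

/-!
# The reduction from 3SAT to generalized PCG recognition
-/

namespace Pool.Agent.W983.PCG

open Pool.Agent.NPC

/-- Formulas with three literals in each clause. -/
abbrev F3 : Type := List (Lit ℕ × Lit ℕ × Lit ℕ)

/-- The names of the vertices. -/
abbrev Nm : Type := ℕ × (ℕ × ℕ) × (ℕ × ℕ) × ℕ

/-- The name of the value `true`. -/
def nt : Nm := (0, (0, 0), (0, 0), 0)
/-- The name of the centre. -/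
def nz : Nm := (0, (0, 0), (0, 0), 1)
/-- The name of the first cap. -/
def nc : Nm := (0, (0, 0), (0, 0), 2)
/-- The name of the second cap. -/
def nc' : Nm := (0, (0, 0), (0, 0), 3)
/-- The name of the auxiliary value of a clause. -/
def ny (c : ℕ) : Nm := (1, (c, 0), (0, 0), 0)
/-- The name of the value of an occurrence of a literal. -/
def nl (o : ℕ × ℕ) : Nm := (2, o, (0, 0), 0)

/-- The names of the vertices of a disjunction gadget. -/
def embO (c j i : ℕ) : Nm :=
  if i = 0 then (if j = 0 then nt else ny c) else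
  if i = 1 then (if j = 0 then ny c else nl (c, 1)) else
  if i = 2 then (if j = 0 then nl (c, 0) else nl (c, 2)) else (3, (c, j), (0, 0), i)

/-- The names of the vertices of a gadget which forces a long pair. -/
def embF (o o' : ℕ × ℕ) (i : ℕ) : Nm :=
  if i = 0 then nl o else if i = 1 then nl o' else (4, o, o', i)

/-- A literal of a clause. -/
def lit (φ : F3) (o : ℕ × ℕ) : Lit ℕ :=
  if o.2 = 0 then (φ.getD o.1 ((false, 0), (false, 0), (false, 0))).1 else
  if o.2 = 1 then (φ.getD o.1 ((false, 0), (false, 0), (false, 0))).2.1 else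
  (φ.getD o.1 ((false, 0), (false, 0), (false, 0))).2.2

/-- All occurrences of literals. -/
def occs (φ : F3) : List (ℕ × ℕ) :=
  (List.range φ.length).flatMap (fun c => [(c, 0), (c, 1), (c, 2)])

/-- The names of the values. -/
def vals (φ : F3) : List Nm :=
  nt :: (List.range φ.length).flatMap (fun c => [ny c, nl (c, 0), nl (c, 1), nl (c, 2)])

/-- The disjunctions. -/
def disj (φ : F3) : List (ℕ × ℕ) := (List.range φ.length).flatMap (fun c => [(c, 0), (c, 1)])

/-- The contradictory pairs. -/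
def contr (φ : F3) : List ((ℕ × ℕ) × (ℕ × ℕ)) :=
  (occs φ).flatMap (fun o => ((occs φ).filter (fun o' =>
    decide ((lit φ o).1 = true ∧ (lit φ o').1 = false ∧ (lit φ o).2 = (lit φ o').2))).map
      (fun o' => (o, o')))

/-- The edges. -/
def EL (φ : F3) : List (Nm × Nm) :=
  (vals φ).map (fun x => (nz, x)) ++
  ((disj φ).flatMap (fun g => orE.map (fun e => (embO g.1 g.2 e.1, embO g.1 g.2 e.2))) ++
  (contr φ).flatMap (fun g => flE.map (fun e => (embF g.1 g.2 e.1, embF g.1 g.2 e.2))))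

/-- The forbidden pairs. -/
def SL (φ : F3) : List (Nm × Nm) :=
  (vals φ).flatMap (fun x => (vals φ).map (fun y => (x, y))) ++
  ((disj φ).flatMap (fun g => orS.map (fun e => (embO g.1 g.2 e.1, embO g.1 g.2 e.2))) ++
  (contr φ).flatMap (fun g => flS.map (fun e => (embF g.1 g.2 e.1, embF g.1 g.2 e.2))))

/-- The vertices. -/
def VL (φ : F3) : List Nm := nc :: nc' :: (ends (EL φ) ++ ends (SL φ))

/-- The reduction. -/
def red (φ : F3) : List (List Bool) × List (List Bool) := inst (VL φ) (EL φ) (SL φ)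

theorem mem_occs {φ : F3} {o : ℕ × ℕ} : o ∈ occs φ ↔ o.1 < φ.length ∧ o.2 < 3 := by
  obtain ⟨c, k⟩ := o
  simp only [occs, List.mem_flatMap, List.mem_range, List.mem_cons, List.not_mem_nil, or_false,
    Prod.mk.injEq]
  constructor
  · rintro ⟨c', hc', (⟨rfl, rfl⟩ | ⟨rfl, rfl⟩ | ⟨rfl, rfl⟩)⟩ <;> exact ⟨hc', by norm_num⟩
  · rintro ⟨h1, h2⟩
    refine ⟨c, h1, ?_⟩
    interval_cases k <;> simp

theorem mem_contr {φ : F3} {o o' : ℕ × ℕ} : (o, o') ∈ contr φ ↔ o ∈ occs φ ∧ o' ∈ occs φ ∧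
    (lit φ o).1 = true ∧ (lit φ o').1 = false ∧ (lit φ o).2 = (lit φ o').2 := by
  unfold contr
  simp only [List.mem_flatMap, List.mem_map, List.mem_filter, decide_eq_true_eq, Prod.mk.injEq]
  constructor
  · rintro ⟨a, ha, b, ⟨hb, h⟩, rfl, rfl⟩
    exact ⟨ha, hb, h⟩
  · rintro ⟨ha, hb, h⟩
    exact ⟨o, ha, o', ⟨hb, h⟩, rfl, rfl⟩

theorem nt_mem (φ : F3) : nt ∈ vals φ := by simp [vals]

theorem ny_mem {φ : F3} {c : ℕ} (h : c < φ.length) : ny c ∈ vals φ := by
  refine List.mem_cons_of_mem _ (List.mem_flatMap.2 ⟨c, List.mem_range.2 h, by simp⟩)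

theorem nl_mem {φ : F3} {o : ℕ × ℕ} (h : o ∈ occs φ) : nl o ∈ vals φ := by
  obtain ⟨c, k⟩ := o
  obtain ⟨h1, h2⟩ := mem_occs.1 h
  simp only at h1 h2
  refine List.mem_cons_of_mem _ (List.mem_flatMap.2 ⟨c, List.mem_range.2 h1, ?_⟩)
  interval_cases k <;> simp

theorem embO_inj (c j i i' : ℕ) (h : embO c j i = embO c j i') : i = i' := by
  unfold embO nt ny nl at h
  split_ifs at h <;> simp_all

theorem embF_inj {o o' : ℕ × ℕ} (hne : o ≠ o') (i i' : ℕ) (h : embF o o' i = embF o o' i') :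
    i = i' := by
  unfold embF nl at h
  split_ifs at h <;> simp_all

theorem nt_ne_ny (c : ℕ) : nt ≠ ny c := by simp [nt, ny]

theorem nt_ne_nl (o : ℕ × ℕ) : nt ≠ nl o := by simp [nt, nl]

theorem ny_ne_nl (c : ℕ) (o : ℕ × ℕ) : ny c ≠ nl o := by simp [ny, nl]

theorem nl_ne {o o' : ℕ × ℕ} (h : o ≠ o') : nl o ≠ nl o' := by
  intro hh
  simp only [nl, Prod.mk.injEq, and_true, true_and] at hh
  exact h hh

theorem nz_ne {φ : F3} {x : Nm} (hx : x ∈ vals φ) : nz ≠ x := by
  rintro rfl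
  simp [vals, nz, nt, ny, nl] at hx

theorem lit_eq {φ : F3} {c : ℕ} (hc : c < φ.length) :
    lit φ (c, 0) = φ[c].1 ∧ lit φ (c, 1) = φ[c].2.1 ∧ lit φ (c, 2) = φ[c].2.2 := by
  have e : φ.getD c ((false, 0), (false, 0), (false, 0)) = φ[c] := by
    simp [List.getD_eq_getElem?_getD, hc]
  unfold lit
  simp only [e]
  exact ⟨rfl, rfl, rfl⟩

/-! ### Soundness -/

theorem sat_of_red {φ : F3} (h : GenPCG (red φ)) : SAT3 φ := by
  classical
  obtain ⟨d, m, M, hd, hE, hS⟩ := of_inst (X := Nm) (l := VL φ) (by simp [VL])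
    (fun u v huv => by
      have := mem_ends huv
      exact ⟨by simp [VL, this.1], by simp [VL, this.2]⟩)
    (fun u v huv => by
      have := mem_ends huv
      exact ⟨by simp [VL, this.1], by simp [VL, this.2]⟩) h
  have hz : ∀ x ∈ vals φ, InE d m M nz x := fun x hx =>
    hE _ _ (by
      unfold EL
      exact List.mem_append_left _ (List.mem_map.2 ⟨x, hx, rfl⟩)) (nz_ne hx)
  have hs : ∀ x ∈ vals φ, ∀ y ∈ vals φ, x ≠ y → ¬ InE d m M x y := fun x hx y hy hxy =>
    hS _ _ (by
      unfold SL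
      exact List.mem_append_left _ (List.mem_flatMap.2 ⟨x, hx, List.mem_map.2 ⟨y, hy, rfl⟩⟩)) hxy
  have tr : ∀ x ∈ vals φ, ∀ y ∈ vals φ, ∀ u ∈ vals φ, x ≠ u → d x y < m → d y u < m →
      d x u < m := fun x hx y hy u hu hxu h1 h2 =>
    short_of (hs x hx u hu hxu) (claw hd (hz x hx) (hz y hy) (hz u hu) h1 h2)
  have hor : ∀ c < φ.length, ∀ j < 2, d (embO c j 0) (embO c j 1) < m ∨
      d (embO c j 0) (embO c j 2) < m := by
    intro c hc j hj
    have hg : (c, j) ∈ disj φ := by
      refine List.mem_flatMap.2 ⟨c, List.mem_range.2 hc, ?_⟩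
      interval_cases j <;> simp
    refine or_sound hd (M := M) (e := embO c j) (fun p hp => ?_) (fun p hp => ?_)
    · refine hE _ _ ?_ (fun hh => ?_)
      · unfold EL
        exact List.mem_append_right _ (List.mem_append_left _
          (List.mem_flatMap.2 ⟨_, hg, List.mem_map.2 ⟨p, hp, rfl⟩⟩))
      · exact (by decide : ∀ p ∈ orE, p.1 ≠ p.2) p hp (embO_inj c j _ _ hh)
    · refine hS _ _ ?_ (fun hh => ?_)
      · unfold SL
        exact List.mem_append_right _ (List.mem_append_left _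
          (List.mem_flatMap.2 ⟨_, hg, List.mem_map.2 ⟨p, hp, rfl⟩⟩))
      · exact (by decide : ∀ p ∈ orS, p.1 ≠ p.2) p hp (embO_inj c j _ _ hh)
  have hfl : ∀ o o', (o, o') ∈ contr φ → ¬ d (nl o) (nl o') < m := by
    intro o o' hg
    obtain ⟨-, -, g1, g2, -⟩ := mem_contr.1 hg
    have hne : o ≠ o' := by
      rintro rfl
      rw [g1] at g2
      exact absurd g2 (by decide)
    refine fl_sound hd (M := M) (e := embF o o') (fun p hp => ?_) (fun p hp => ?_)
    · refine hE _ _ ?_ (fun hh => ?_)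
      · unfold EL
        exact List.mem_append_right _ (List.mem_append_right _
          (List.mem_flatMap.2 ⟨_, hg, List.mem_map.2 ⟨p, hp, rfl⟩⟩))
      · exact (by decide : ∀ p ∈ flE, p.1 ≠ p.2) p hp (embF_inj hne _ _ hh)
    · refine hS _ _ ?_ (fun hh => ?_)
      · unfold SL
        exact List.mem_append_right _ (List.mem_append_right _
          (List.mem_flatMap.2 ⟨_, hg, List.mem_map.2 ⟨p, hp, rfl⟩⟩))
      · exact (by decide : ∀ p ∈ flS, p.1 ≠ p.2) p hp (embF_inj hne _ _ hh)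
  -- the true literals
  have hcl : ∀ c < φ.length, d nt (nl (c, 0)) < m ∨ d nt (nl (c, 1)) < m ∨
      d nt (nl (c, 2)) < m := by
    intro c hc
    have m0 : nl (c, 0) ∈ vals φ := nl_mem (mem_occs.2 ⟨hc, by norm_num⟩)
    have m1 : nl (c, 1) ∈ vals φ := nl_mem (mem_occs.2 ⟨hc, by norm_num⟩)
    have m2 : nl (c, 2) ∈ vals φ := nl_mem (mem_occs.2 ⟨hc, by norm_num⟩)
    have o1 := hor c hc 0 (by norm_num)
    have o2 := hor c hc 1 (by norm_num)
    simp only [embO, if_true, one_ne_zero, if_false, OfNat.ofNat_ne_zero, OfNat.ofNat_ne_one]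
      at o1 o2
    rcases o1 with o1 | o1
    · rcases o2 with o2 | o2
      · exact Or.inr (Or.inl (tr _ (nt_mem φ) _ (ny_mem hc) _ m1 (nt_ne_nl _) o1 o2))
      · exact Or.inr (Or.inr (tr _ (nt_mem φ) _ (ny_mem hc) _ m2 (nt_ne_nl _) o1 o2))
    · exact Or.inl o1
  let τ : ℕ → Bool := fun v => decide (∃ o ∈ occs φ, lit φ o = (true, v) ∧ d nt (nl o) < m)
  have hτ : ∀ o ∈ occs φ, d nt (nl o) < m → τ (lit φ o).2 = (lit φ o).1 := by
    intro o ho hlt
    cases hb : (lit φ o).1 with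
    | true =>
      exact decide_eq_true ⟨o, ho, by rw [← hb], hlt⟩
    | false =>
      refine decide_eq_false ?_
      rintro ⟨o', ho', hl, hlt'⟩
      have hc : (o', o) ∈ contr φ := by
        rw [mem_contr]
        refine ⟨ho', ho, ?_, hb, ?_⟩
        · rw [hl]
        · rw [hl]
      refine hfl _ _ hc (tr _ (nl_mem ho') _ (nt_mem φ) _ (nl_mem ho) (nl_ne ?_) ?_ hlt)
      · rintro rfl
        rw [hl] at hb
        exact absurd hb (by simp)
      · rw [hd.comm]
        exact hlt'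
  refine ⟨τ, fun c hc => ?_⟩
  obtain ⟨k, hk, rfl⟩ := List.getElem_of_mem hc
  obtain ⟨l0, l1, l2⟩ := lit_eq hk
  rcases hcl k hk with h3 | h3 | h3
  · left
    rw [← l0]
    exact hτ _ (mem_occs.2 ⟨hk, by norm_num⟩) h3
  · right; left
    rw [← l1]
    exact hτ _ (mem_occs.2 ⟨hk, by norm_num⟩) h3
  · right; right
    rw [← l2]
    exact hτ _ (mem_occs.2 ⟨hk, by norm_num⟩) h3

/-! ### Completeness -/

/-- The sign of a side. -/
def sg (b : Bool) : ℤ := if b then 1 else -1

/-- The positions in the disjunction gadget, relative to the side of the terminal `0`. -/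
def orTab (j q r : Bool) : List (ℤ × ℤ) :=
  let hp : ℤ := if j then 14 else 12
  let hq : ℤ := if j then 16 else 14
  [(116, hp), (116 * sg q, hq), (116 * sg r, 10)] ++
  (if q then
    (if r then
      [(100, 84 - hq), (75, 59 - hp), (60, 36), (90, 74 - hq), (90, 74 - hp), (75, 51)]
    else
      [(82, 66 - hq), (80, 70), (-60, 50), (100, 84 - hq), (-90, 5), (80, 20)])
  else
    [(-70, 55), (75, 59 - hp), (60, 36), (100, 5), (90, 74 - hp), (75, 51)]) ++
  [(170, 50), (170, 50), (-20, 50), (-20, 50),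
    (170 * sg r, 50), (170 * sg r, 50), (-20 * sg r, 50), (-20 * sg r, 50),
    (170, 50), (170, 50), (-20, 50), (-20, 50)]

/-- The positions in the disjunction gadget. -/
def orPos (j p q r : Bool) (i : ℕ) : ℤ × ℤ :=
  let x := (orTab j (q == p) (r == p)).getD i (0, 1)
  (sg p * x.1, x.2)

/-- The positions in the other gadget. -/
def flTab (hb hc : Bool) : List (ℤ × ℤ) :=
  [(116, if hb then 16 else 10), (-116, if hc then 16 else 10), (-39, 1), (39, 1),
    (-170, 50), (-170, 50), (20, 50), (20, 50), (170, 50), (170, 50), (-20, 50), (-20, 50),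
    (90, 50), (90, 50), (-90, 50), (-90, 50)]

/-- The positions in the other gadget. -/
def flPos (hb hc p : Bool) (i : ℕ) : ℤ × ℤ :=
  let x := (flTab hb hc).getD i (0, 1)
  (sg p * x.1, x.2)

theorem or_good : ∀ j p q r : Bool, (q = p ∨ r = p) →
    (∀ e ∈ orE, good (orPos j p q r e.1) (orPos j p q r e.2) = true) ∧
    (∀ e ∈ orS, good (orPos j p q r e.1) (orPos j p q r e.2) = false) := by
  decide +kernel

theorem fl_good : ∀ hb hc p : Bool,
    (∀ e ∈ flE, good (flPos hb hc p e.1) (flPos hb hc p e.2) = true) ∧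
    (∀ e ∈ flS, good (flPos hb hc p e.1) (flPos hb hc p e.2) = false) := by
  decide +kernel

theorem orTab_bd : ∀ j q r : Bool, ∀ x ∈ orTab j q r, -170 ≤ x.1 ∧ x.1 ≤ 170 ∧ 0 < x.2 := by
  decide +kernel

theorem flTab_bd : ∀ hb hc : Bool, ∀ x ∈ flTab hb hc, -170 ≤ x.1 ∧ x.1 ≤ 170 ∧ 0 < x.2 := by
  decide +kernel

theorem getD_bd {l : List (ℤ × ℤ)} (h : ∀ x ∈ l, -170 ≤ x.1 ∧ x.1 ≤ 170 ∧ 0 < x.2) (i : ℕ) :
    -170 ≤ (l.getD i (0, 1)).1 ∧ (l.getD i (0, 1)).1 ≤ 170 ∧ 0 < (l.getD i (0, 1)).2 := by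
  rw [List.getD_eq_getElem?_getD]
  rcases Nat.lt_or_ge i l.length with hi | hi
  · rw [List.getElem?_eq_getElem hi]
    exact h _ (List.getElem_mem hi)
  · rw [List.getElem?_eq_none hi]
    norm_num

theorem sg_bd {p : Bool} {a : ℤ} (h : -170 ≤ a ∧ a ≤ 170) : -170 ≤ sg p * a ∧ sg p * a ≤ 170 := by
  cases p <;> simp only [sg, if_true, Bool.false_eq_true, if_false] <;> omega

section

variable (L : ℕ × ℕ → Bool)

/-- The side of the auxiliary value of a clause. -/
def sdY (c : ℕ) : Bool := if L (c, 0) then L (c, 1) else true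

/-- The positions of all names; `L` gives the sides of the literals. -/
def pos (x : Nm) : ℤ × ℤ :=
  if x.1 = 0 then
    (if x.2.2.2 = 0 then (116, 12) else if x.2.2.2 = 1 then (0, 50) else
      if x.2.2.2 = 2 then (-170, 1) else (170, 1)) else
  if x.1 = 1 then (sg (sdY L x.2.1.1) * 116, 14) else
  if x.1 = 2 then (sg (L x.2.1) * 116, if x.2.1.2 = 1 then 16 else 10) else
  if x.1 = 3 then
    (if x.2.1.2 = 0 then orPos false true (sdY L x.2.1.1) (L (x.2.1.1, 0)) x.2.2.2 else
      orPos true (sdY L x.2.1.1) (L (x.2.1.1, 1)) (L (x.2.1.1, 2)) x.2.2.2) else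
  flPos (decide (x.2.1.2 = 1)) (decide (x.2.2.1.2 = 1)) (L x.2.1) x.2.2.2

theorem pos_bd (x : Nm) : -170 ≤ (pos L x).1 ∧ (pos L x).1 ≤ 170 ∧ 0 < (pos L x).2 := by
  unfold pos
  split_ifs
  · norm_num
  · norm_num
  · norm_num
  · norm_num
  · have := sg_bd (p := sdY L x.2.1.1) (a := 116) (by norm_num)
    exact ⟨this.1, this.2, by norm_num⟩
  · have := sg_bd (p := L x.2.1) (a := 116) (by norm_num)
    exact ⟨this.1, this.2, by norm_num⟩
  · have := sg_bd (p := L x.2.1) (a := 116) (by norm_num)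
    exact ⟨this.1, this.2, by norm_num⟩
  · have h1 := getD_bd (orTab_bd false (sdY L x.2.1.1 == true) (L (x.2.1.1, 0) == true)) x.2.2.2
    have h2 := sg_bd (p := true) ⟨h1.1, h1.2.1⟩
    exact ⟨h2.1, h2.2, h1.2.2⟩
  · have h1 := getD_bd (orTab_bd true (L (x.2.1.1, 1) == sdY L x.2.1.1)
      (L (x.2.1.1, 2) == sdY L x.2.1.1)) x.2.2.2
    have h2 := sg_bd (p := sdY L x.2.1.1) ⟨h1.1, h1.2.1⟩
    exact ⟨h2.1, h2.2, h1.2.2⟩
  · have h1 := getD_bd (flTab_bd (decide (x.2.1.2 = 1)) (decide (x.2.2.1.2 = 1))) x.2.2.2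
    have h2 := sg_bd (p := L x.2.1) ⟨h1.1, h1.2.1⟩
    exact ⟨h2.1, h2.2, h1.2.2⟩

theorem pos_nt : pos L nt = (116, 12) := by simp [pos, nt]

theorem pos_nz : pos L nz = (0, 50) := by simp [pos, nz]

theorem pos_ny (c : ℕ) : pos L (ny c) = (sg (sdY L c) * 116, 14) := by simp [pos, ny]

theorem pos_nl (o : ℕ × ℕ) : pos L (nl o) = (sg (L o) * 116, if o.2 = 1 then 16 else 10) := rfl

theorem pos_embO0 (c i : ℕ) :
    pos L (embO c 0 i) = orPos false true (sdY L c) (L (c, 0)) i := by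
  unfold embO
  simp only [↓reduceIte]
  split_ifs with h0 h1 h2
  · subst h0
    rw [pos_nt]
    simp [orPos, orTab, sg]
  · subst h1
    rw [pos_ny]
    cases sdY L c <;> simp [orPos, orTab, sg]
  · subst h2
    rw [pos_nl]
    cases L (c, 0) <;> simp [orPos, orTab, sg]
  · simp [pos]

theorem pos_embO1 (c i : ℕ) :
    pos L (embO c 1 i) = orPos true (sdY L c) (L (c, 1)) (L (c, 2)) i := by
  unfold embO
  simp only [one_ne_zero, if_false]
  split_ifs with h0 h1 h2
  · subst h0
    rw [pos_ny]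
    cases sdY L c <;> simp [orPos, orTab, sg]
  · subst h1
    rw [pos_nl]
    cases sdY L c <;> cases L (c, 1) <;> simp [orPos, orTab, sg]
  · subst h2
    rw [pos_nl]
    cases sdY L c <;> cases L (c, 2) <;> simp [orPos, orTab, sg]
  · simp [pos]

theorem pos_embF {o o' : ℕ × ℕ} (h : L o' = !L o) (i : ℕ) :
    pos L (embF o o' i) = flPos (decide (o.2 = 1)) (decide (o'.2 = 1)) (L o) i := by
  unfold embF
  split_ifs with h0 h1
  · subst h0
    rw [pos_nl]
    simp [flPos, flTab]
  · subst h1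
    rw [pos_nl, h]
    cases L o <;> simp [flPos, flTab, sg]
  · simp [pos]

/-- The values are at two places. -/
def isVal (a : ℤ × ℤ) : Prop := (a.1 = 116 ∨ a.1 = -116) ∧ 10 ≤ a.2 ∧ a.2 ≤ 16

theorem vals_pos {φ : F3} {x : Nm} (hx : x ∈ vals φ) : isVal (pos L x) := by
  unfold vals at hx
  rw [List.mem_cons, List.mem_flatMap] at hx
  rcases hx with rfl | ⟨c, -, hx⟩
  · rw [pos_nt]
    unfold isVal
    norm_num
  · have hl : ∀ o, isVal (pos L (nl o)) := by
      intro o
      rw [pos_nl]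
      unfold isVal sg
      constructor
      · cases L o <;> simp
      · split_ifs <;> norm_num
    simp only [List.mem_cons, List.not_mem_nil, or_false] at hx
    rcases hx with rfl | rfl | rfl | rfl
    · rw [pos_ny]
      unfold isVal sg
      constructor
      · cases sdY L c <;> simp
      · norm_num
    · exact hl _
    · exact hl _
    · exact hl _

theorem val_good {a : ℤ × ℤ} (h : isVal a) : good (0, 50) a = true := by
  obtain ⟨h1, h2, h3⟩ := h
  unfold good dd
  rw [Bool.and_eq_true, decide_eq_true_iff, decide_eq_true_iff]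
  rcases h1 with h1 | h1 <;> rw [h1] <;> norm_num <;> omega

theorem val_bad {a b : ℤ × ℤ} (h : isVal a) (h' : isVal b) : good a b = false := by
  obtain ⟨h1, h2, h3⟩ := h
  obtain ⟨h4, h5, h6⟩ := h'
  unfold good dd
  rw [Bool.and_eq_false_iff, decide_eq_false_iff_not, decide_eq_false_iff_not]
  rcases h1 with h1 | h1 <;> rcases h4 with h4 | h4 <;> rw [h1, h4] <;> norm_num <;> omega

end

theorem red_of_sat {φ : F3} (h : SAT3 φ) : GenPCG (red φ) := by
  obtain ⟨τ, hτ⟩ := h
  let L : ℕ × ℕ → Bool := fun o => (τ (lit φ o).2 == (lit φ o).1)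
  have hcl : ∀ c < φ.length, L (c, 0) = true ∨ L (c, 1) = true ∨ L (c, 2) = true := by
    intro c hc
    obtain ⟨l0, l1, l2⟩ := lit_eq hc
    simp only [L, beq_iff_eq, l0, l1, l2]
    exact hτ _ (List.getElem_mem hc)
  have hcon : ∀ o o', (o, o') ∈ contr φ → L o' = !L o := by
    intro o o' ho
    obtain ⟨-, -, h1, h2, h3⟩ := mem_contr.1 ho
    simp only [L, h1, h2, h3]
    cases τ (lit φ o').2 <;> rfl
  have hdisj : ∀ g ∈ disj φ, (∀ e ∈ orE, good (pos L (embO g.1 g.2 e.1))
      (pos L (embO g.1 g.2 e.2)) = true) ∧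
      (∀ e ∈ orS, good (pos L (embO g.1 g.2 e.1)) (pos L (embO g.1 g.2 e.2)) = false) := by
    intro g hg
    unfold disj at hg
    rw [List.mem_flatMap] at hg
    obtain ⟨c, hc, hg⟩ := hg
    rw [List.mem_range] at hc
    simp only [List.mem_cons, List.not_mem_nil, or_false] at hg
    have hc' := hcl c hc
    rcases hg with rfl | rfl
    · simp only [pos_embO0]
      apply or_good
      unfold sdY
      by_cases h0 : L (c, 0) = true
      · exact Or.inr h0
      · left
        rw [if_neg h0]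
    · simp only [pos_embO1]
      apply or_good
      unfold sdY
      by_cases h0 : L (c, 0) = true
      · left
        rw [if_pos h0]
      · rw [if_neg h0]
        exact hc'.resolve_left h0
  have hfl : ∀ g ∈ contr φ, (∀ e ∈ flE, good (pos L (embF g.1 g.2 e.1))
      (pos L (embF g.1 g.2 e.2)) = true) ∧
      (∀ e ∈ flS, good (pos L (embF g.1 g.2 e.1)) (pos L (embF g.1 g.2 e.2)) = false) := by
    intro g hg
    simp only [pos_embF L (hcon g.1 g.2 hg)]
    exact fl_good _ _ _
  refine to_inst (x0 := nc) (x1 := nc') (pos L) (pos_bd L) ?_ ?_ (by simp [VL]) (by simp [VL])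
    (by simp [pos, nc]) (by simp [pos, nc'])
  · intro u v huv
    unfold EL at huv
    rw [List.mem_append, List.mem_append, List.mem_map, List.mem_flatMap,
      List.mem_flatMap] at huv
    rcases huv with ⟨x, hx, he⟩ | ⟨g, hg, he⟩ | ⟨g, hg, he⟩
    · cases he
      rw [pos_nz]
      exact val_good (vals_pos L hx)
    · obtain ⟨e, he', hee⟩ := List.mem_map.1 he
      cases hee
      exact (hdisj g hg).1 e he'
    · obtain ⟨e, he', hee⟩ := List.mem_map.1 he
      cases hee
      exact (hfl g hg).1 e he'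
  · intro u v huv
    unfold SL at huv
    rw [List.mem_append, List.mem_append, List.mem_flatMap, List.mem_flatMap,
      List.mem_flatMap] at huv
    rcases huv with ⟨x, hx, he⟩ | ⟨g, hg, he⟩ | ⟨g, hg, he⟩
    · obtain ⟨y, hy, he⟩ := List.mem_map.1 he
      cases he
      exact val_bad (vals_pos L hx) (vals_pos L hy)
    · obtain ⟨e, he', hee⟩ := List.mem_map.1 he
      cases hee
      exact (hdisj g hg).2 e he'
    · obtain ⟨e, he', hee⟩ := List.mem_map.1 he
      cases hee
      exact (hfl g hg).2 e he'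

theorem red_iff (φ : F3) : SAT3 φ ↔ GenPCG (red φ) := ⟨red_of_sat, sat_of_red⟩

end Pool.Agent.W983.PCG
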