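import Mathlib
import Pool.Agent.W983.PCG.Red
import Pool.Agent.NPC.Num

set_option autoImplicit false
set_option linter.unusedSectionVars false

/-!
# The reduction is computable in polynomial time
-/

namespace Pool.Agent.W983.PCG

open Pool.Agent.NPC

section

variable {α : Type} [TEnc α]

theorem c_poly (n : ℕ) : NPC.Poly (fun _ : α => n) := NPC.Poly.const n

theorem rangeLen_poly {f : α → F3} (hf : NPC.Poly f) :
    NPC.Poly (fun a => List.range (f a).length) := (UPoly.length hf).range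

theorem ny_poly {c : α → ℕ} (hc : NPC.Poly c) : NPC.Poly (fun a => ny (c a)) :=
  NPC.Poly.pair (c_poly 1) (NPC.Poly.pair (NPC.Poly.pair hc (c_poly 0)) (NPC.Poly.const _))

theorem nl_poly {o : α → ℕ × ℕ} (ho : NPC.Poly o) : NPC.Poly (fun a => nl (o a)) :=
  NPC.Poly.pair (c_poly 2) (NPC.Poly.pair ho (NPC.Poly.const _))

theorem nl'_poly {c : α → ℕ} (hc : NPC.Poly c) (k : ℕ) : NPC.Poly (fun a => nl (c a, k)) :=
  nl_poly (NPC.Poly.pair hc (c_poly k))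

theorem embO_poly {c j i : α → ℕ} (hc : NPC.Poly c) (hj : NPC.Poly j) (hi : NPC.Poly i) :
    NPC.Poly (fun a => embO (c a) (j a) (i a)) := by
  unfold embO
  have ej : NPC.Poly (fun a => decide (j a = 0)) := NPC.Poly.decide_eq hj (c_poly 0)
  have ei : ∀ n : ℕ, NPC.Poly (fun a => decide (i a = n)) := fun n =>
    NPC.Poly.decide_eq hi (c_poly n)
  exact NPC.Poly.ite (ei 0) (NPC.Poly.ite ej (NPC.Poly.const _) (ny_poly hc))
    (NPC.Poly.ite (ei 1) (NPC.Poly.ite ej (ny_poly hc) (nl'_poly hc 1))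
      (NPC.Poly.ite (ei 2) (NPC.Poly.ite ej (nl'_poly hc 0) (nl'_poly hc 2))
        (NPC.Poly.pair (c_poly 3) (NPC.Poly.pair (NPC.Poly.pair hc hj)
          (NPC.Poly.pair (NPC.Poly.const _) hi)))))

theorem embF_poly {o o' : α → ℕ × ℕ} {i : α → ℕ} (ho : NPC.Poly o) (ho' : NPC.Poly o')
    (hi : NPC.Poly i) : NPC.Poly (fun a => embF (o a) (o' a) (i a)) := by
  unfold embF
  have ei : ∀ n : ℕ, NPC.Poly (fun a => decide (i a = n)) := fun n =>
    NPC.Poly.decide_eq hi (c_poly n)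
  exact NPC.Poly.ite (ei 0) (nl_poly ho) (NPC.Poly.ite (ei 1) (nl_poly ho')
    (NPC.Poly.pair (c_poly 4) (NPC.Poly.pair ho (NPC.Poly.pair ho' hi))))

theorem lit_poly {f : α → F3} {o : α → ℕ × ℕ} (hf : NPC.Poly f) (ho : NPC.Poly o) :
    NPC.Poly (fun a => lit (f a) (o a)) := by
  unfold lit
  have hd : NPC.Poly (fun a => (f a).getD (o a).1 ((false, 0), (false, 0), (false, 0))) :=
    NPC.Poly.getD hf (NPC.Poly.fst ho) (NPC.Poly.const _)
  have hk := NPC.Poly.snd ho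
  exact NPC.Poly.ite (NPC.Poly.decide_eq hk (c_poly 0)) (NPC.Poly.fst hd)
    (NPC.Poly.ite (NPC.Poly.decide_eq hk (c_poly 1)) (NPC.Poly.fst (NPC.Poly.snd hd))
      (NPC.Poly.snd (NPC.Poly.snd hd)))

theorem occs_poly {f : α → F3} (hf : NPC.Poly f) : NPC.Poly (fun a => occs (f a)) := by
  unfold occs
  refine NPC.Poly.flatMap (F := fun (_ : α) (c : ℕ) => [(c, 0), (c, 1), (c, 2)])
    (rangeLen_poly hf) ?_
  have hc : NPC.Poly (fun q : α × ℕ => q.2) := NPC.Poly.snd NPC.Poly.id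
  have hp : ∀ k : ℕ, NPC.Poly (fun q : α × ℕ => (q.2, k)) := fun k =>
    NPC.Poly.pair hc (c_poly k)
  exact NPC.Poly.cons (hp 0) (NPC.Poly.cons (hp 1) (NPC.Poly.cons (hp 2) (NPC.Poly.const _)))

theorem disj_poly {f : α → F3} (hf : NPC.Poly f) : NPC.Poly (fun a => disj (f a)) := by
  unfold disj
  refine NPC.Poly.flatMap (F := fun (_ : α) (c : ℕ) => [(c, 0), (c, 1)])
    (rangeLen_poly hf) ?_
  have hc : NPC.Poly (fun q : α × ℕ => q.2) := NPC.Poly.snd NPC.Poly.id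
  have hp : ∀ k : ℕ, NPC.Poly (fun q : α × ℕ => (q.2, k)) := fun k =>
    NPC.Poly.pair hc (c_poly k)
  exact NPC.Poly.cons (hp 0) (NPC.Poly.cons (hp 1) (NPC.Poly.const _))

theorem vals_poly {f : α → F3} (hf : NPC.Poly f) : NPC.Poly (fun a => vals (f a)) := by
  unfold vals
  refine NPC.Poly.cons (NPC.Poly.const _) ?_
  refine NPC.Poly.flatMap (F := fun (_ : α) (c : ℕ) => [ny c, nl (c, 0), nl (c, 1), nl (c, 2)])
    (rangeLen_poly hf) ?_
  have hc : NPC.Poly (fun q : α × ℕ => q.2) := NPC.Poly.snd NPC.Poly.id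
  exact NPC.Poly.cons (ny_poly hc) (NPC.Poly.cons (nl'_poly hc 0) (NPC.Poly.cons (nl'_poly hc 1)
    (NPC.Poly.cons (nl'_poly hc 2) (NPC.Poly.const _))))

theorem contr_poly {f : α → F3} (hf : NPC.Poly f) : NPC.Poly (fun a => contr (f a)) := by
  unfold contr
  refine NPC.Poly.flatMap (F := fun (a : α) (o : ℕ × ℕ) => ((occs (f a)).filter (fun o' =>
    decide ((lit (f a) o).1 = true ∧ (lit (f a) o').1 = false ∧
      (lit (f a) o).2 = (lit (f a) o').2))).map (fun o' => (o, o'))) (occs_poly hf) ?_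
  refine NPC.Poly.map (F := fun (q : α × (ℕ × ℕ)) (o' : ℕ × ℕ) => (q.2, o')) ?_ ?_
  · refine NPC.Poly.filter (p := fun (q : α × (ℕ × ℕ)) (o' : ℕ × ℕ) =>
      decide ((lit (f q.1) q.2).1 = true ∧ (lit (f q.1) o').1 = false ∧
        (lit (f q.1) q.2).2 = (lit (f q.1) o').2))
      (occs_poly (hf.comp (NPC.Poly.fst NPC.Poly.id))) ?_
    have h1 : NPC.Poly (fun q : (α × (ℕ × ℕ)) × (ℕ × ℕ) => f q.1.1) :=
      hf.comp (NPC.Poly.fst (NPC.Poly.fst NPC.Poly.id))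
    have h2 := lit_poly h1 (NPC.Poly.snd (NPC.Poly.fst NPC.Poly.id))
    have h3 := lit_poly h1 (NPC.Poly.snd NPC.Poly.id)
    exact NPC.Poly.decide_and (NPC.Poly.decide_eq (NPC.Poly.fst h2) (NPC.Poly.const true))
      (NPC.Poly.decide_and (NPC.Poly.decide_eq (NPC.Poly.fst h3) (NPC.Poly.const false))
        (NPC.Poly.decide_eq (NPC.Poly.snd h2) (NPC.Poly.snd h3)))
  · exact NPC.Poly.pair (NPC.Poly.snd (NPC.Poly.fst NPC.Poly.id)) (NPC.Poly.snd NPC.Poly.id)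

theorem gadO_poly {f : α → F3} (hf : NPC.Poly f) (l : List (ℕ × ℕ)) :
    NPC.Poly (fun a => (disj (f a)).flatMap
      (fun g => l.map (fun e => (embO g.1 g.2 e.1, embO g.1 g.2 e.2)))) := by
  refine NPC.Poly.flatMap (F := fun (_ : α) (g : ℕ × ℕ) =>
    l.map (fun e => (embO g.1 g.2 e.1, embO g.1 g.2 e.2))) (disj_poly hf) ?_
  refine NPC.Poly.map (F := fun (q : α × (ℕ × ℕ)) (e : ℕ × ℕ) =>
    (embO q.2.1 q.2.2 e.1, embO q.2.1 q.2.2 e.2)) (NPC.Poly.const l) ?_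
  have h1 : NPC.Poly (fun q : (α × (ℕ × ℕ)) × (ℕ × ℕ) => q.1.2.1) :=
    NPC.Poly.fst (NPC.Poly.snd (NPC.Poly.fst NPC.Poly.id))
  have h2 : NPC.Poly (fun q : (α × (ℕ × ℕ)) × (ℕ × ℕ) => q.1.2.2) :=
    NPC.Poly.snd (NPC.Poly.snd (NPC.Poly.fst NPC.Poly.id))
  exact NPC.Poly.pair (embO_poly h1 h2 (NPC.Poly.fst (NPC.Poly.snd NPC.Poly.id)))
    (embO_poly h1 h2 (NPC.Poly.snd (NPC.Poly.snd NPC.Poly.id)))

theorem gadF_poly {f : α → F3} (hf : NPC.Poly f) (l : List (ℕ × ℕ)) :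
    NPC.Poly (fun a => (contr (f a)).flatMap
      (fun g => l.map (fun e => (embF g.1 g.2 e.1, embF g.1 g.2 e.2)))) := by
  refine NPC.Poly.flatMap (F := fun (_ : α) (g : (ℕ × ℕ) × (ℕ × ℕ)) =>
    l.map (fun e => (embF g.1 g.2 e.1, embF g.1 g.2 e.2))) (contr_poly hf) ?_
  refine NPC.Poly.map (F := fun (q : α × ((ℕ × ℕ) × (ℕ × ℕ))) (e : ℕ × ℕ) =>
    (embF q.2.1 q.2.2 e.1, embF q.2.1 q.2.2 e.2)) (NPC.Poly.const l) ?_
  have h1 : NPC.Poly (fun q : (α × ((ℕ × ℕ) × (ℕ × ℕ))) × (ℕ × ℕ) => q.1.2.1) :=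
    NPC.Poly.fst (NPC.Poly.snd (NPC.Poly.fst NPC.Poly.id))
  have h2 : NPC.Poly (fun q : (α × ((ℕ × ℕ) × (ℕ × ℕ))) × (ℕ × ℕ) => q.1.2.2) :=
    NPC.Poly.snd (NPC.Poly.snd (NPC.Poly.fst NPC.Poly.id))
  exact NPC.Poly.pair (embF_poly h1 h2 (NPC.Poly.fst (NPC.Poly.snd NPC.Poly.id)))
    (embF_poly h1 h2 (NPC.Poly.snd (NPC.Poly.snd NPC.Poly.id)))

theorem EL_poly {f : α → F3} (hf : NPC.Poly f) : NPC.Poly (fun a => EL (f a)) := by
  unfold EL
  refine NPC.Poly.append ?_ (NPC.Poly.append (gadO_poly hf orE) (gadF_poly hf flE))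
  refine NPC.Poly.map (F := fun (_ : α) (x : Nm) => (nz, x)) (vals_poly hf) ?_
  exact NPC.Poly.pair (NPC.Poly.const nz) (NPC.Poly.snd NPC.Poly.id)

theorem SL_poly {f : α → F3} (hf : NPC.Poly f) : NPC.Poly (fun a => SL (f a)) := by
  unfold SL
  refine NPC.Poly.append ?_ (NPC.Poly.append (gadO_poly hf orS) (gadF_poly hf flS))
  refine NPC.Poly.flatMap (F := fun (a : α) (x : Nm) => (vals (f a)).map (fun y => (x, y)))
    (vals_poly hf) ?_
  refine NPC.Poly.map (F := fun (q : α × Nm) (y : Nm) => (q.2, y))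
    (vals_poly (hf.comp (NPC.Poly.fst NPC.Poly.id))) ?_
  exact NPC.Poly.pair (NPC.Poly.snd (NPC.Poly.fst NPC.Poly.id)) (NPC.Poly.snd NPC.Poly.id)

theorem ends_poly {l : α → List (Nm × Nm)} (hl : NPC.Poly l) :
    NPC.Poly (fun a => ends (l a)) := by
  unfold ends
  refine NPC.Poly.flatMap (F := fun (_ : α) (e : Nm × Nm) => [e.1, e.2]) hl ?_
  exact NPC.Poly.cons (NPC.Poly.fst (NPC.Poly.snd NPC.Poly.id))
    (NPC.Poly.cons (NPC.Poly.snd (NPC.Poly.snd NPC.Poly.id)) (NPC.Poly.const _))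

theorem VL_poly {f : α → F3} (hf : NPC.Poly f) : NPC.Poly (fun a => VL (f a)) :=
  NPC.Poly.cons (NPC.Poly.const _) (NPC.Poly.cons (NPC.Poly.const _)
    (NPC.Poly.append (ends_poly (EL_poly hf)) (ends_poly (SL_poly hf))))

theorem rel_poly {X : Type} [TEnc X] [DecidableEq X] {l : α → List (X × X)} {u v : α → X}
    (hl : NPC.Poly l) (hu : NPC.Poly u) (hv : NPC.Poly v) :
    NPC.Poly (fun a => rel (l a) (u a) (v a)) := by
  have h1 : NPC.Poly (fun a => decide ((u a, v a) ∈ l a)) :=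
    (NPC.Poly.decide_mem (NPC.Poly.pair hu hv) hl).congr (fun a => by rw [decide_eq_decide])
  have h2 : NPC.Poly (fun a => decide ((v a, u a) ∈ l a)) :=
    (NPC.Poly.decide_mem (NPC.Poly.pair hv hu) hl).congr (fun a => by rw [decide_eq_decide])
  exact NPC.Poly.decide_and (NPC.Poly.decide_not (NPC.Poly.decide_eq hu hv))
    (NPC.Poly.decide_or h1 h2)

theorem mat_poly {f : α → F3} {g : F3 → List (Nm × Nm)} (hf : NPC.Poly f)
    (hg : ∀ {β : Type} [TEnc β] {h : β → F3}, NPC.Poly h → NPC.Poly (fun b => g (h b))) :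
    NPC.Poly (fun a => mat (VL (f a)) (rel (g (f a)))) := by
  unfold mat
  refine NPC.Poly.map (F := fun (a : α) (u : Nm) => (VL (f a)).map (fun v => rel (g (f a)) u v))
    (VL_poly hf) ?_
  refine NPC.Poly.map (F := fun (q : α × Nm) (v : Nm) => rel (g (f q.1)) q.2 v)
    (VL_poly (hf.comp (NPC.Poly.fst NPC.Poly.id))) ?_
  exact rel_poly (hg (hf.comp (NPC.Poly.fst (NPC.Poly.fst NPC.Poly.id))))
    (NPC.Poly.snd (NPC.Poly.fst NPC.Poly.id)) (NPC.Poly.snd NPC.Poly.id)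

end

theorem red_poly : NPC.Poly red :=
  NPC.Poly.pair (mat_poly NPC.Poly.id (fun h => EL_poly h))
    (mat_poly NPC.Poly.id (fun h => SL_poly h))

/-- Generalized PCG recognition is `NP`-hard. -/
theorem genPCG_hard : NPHardP GenPCG := (hardI_SAT3.trans red_poly red_iff).toNPHardP

end Pool.Agent.W983.PCG
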